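import Pool.Agent.H642.KK.Stm2

set_option autoImplicit false

/-! Trichotomy: `S_TRI`. -/

namespace Pool.Agent.H115.KK

open Set TopologicalSpace
open Pool.Agent.H642.CK (Io Nb Om)
open Pool.Agent.H642.KK

section

variable {K : Type} [TopologicalSpace K]

theorem io_sub {U : Set K} (hU : IsOpen U) (x : U) : Io x ↔ Io (x : K) := by
  unfold Pool.Agent.H642.CK.Io
  rw [hU.isOpenEmbedding_subtypeVal.isOpen_iff_image_isOpen, image_singleton]

theorem l2_sub {U : Set K} (hU : IsOpen U) (x : U) : x ∈ L2 U ↔ (x : K) ∈ L2 K := by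
  constructor
  · intro h V hV hx
    obtain ⟨y, hy, hne, hn⟩ := h (Subtype.val ⁻¹' V) (hV.preimage continuous_subtype_val) hx
    exact ⟨y, hy, fun h => hne (Subtype.ext h), fun h => hn ((io_sub hU y).2 h)⟩
  · intro h V hV hx
    obtain ⟨y, ⟨z, hz, rfl⟩, hne, hn⟩ := h (Subtype.val '' V) (hU.isOpenMap_subtype_val V hV)
      ⟨x, hx, rfl⟩
    exact ⟨z, hz, fun h => hne (congrArg _ h), fun h => hn ((io_sub hU z).1 h)⟩

theorem l2_lim {x : K} (hx : x ∈ L2 K) : ¬ Io x := by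
  intro h
  obtain ⟨y, hy, hne, _⟩ := hx {x} h rfl
  exact hne hy

theorem not_l2 {x : K} (hx : x ∉ L2 K) : ∃ U : Set K, IsOpen U ∧ x ∈ U ∧ ∀ y ∈ U, y ≠ x → Io y := by
  by_contra hcon
  apply hx
  intro U hU hxU
  by_contra h
  apply hcon
  refine ⟨U, hU, hxU, fun y hy hne => ?_⟩
  by_contra hn
  exact h ⟨y, hy, hne, hn⟩

theorem l2_ne [CompactSpace K] (h : {x : K | ¬ Io x}.Infinite) : (L2 K).Nonempty := by
  obtain ⟨x, _, hx⟩ := h.exists_accPt_of_subset_isCompact isCompact_univ (subset_univ _)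
  refine ⟨x, fun U hU hxU => ?_⟩
  obtain ⟨y, ⟨hy1, hy2⟩, hne⟩ := (accPt_iff_nhds.1 hx) U (hU.mem_nhds hxU)
  exact ⟨y, hy1, hne, hy2⟩

theorem io_countable [SecondCountableTopology K] : {x : K | Io x}.Countable := by
  obtain ⟨D, hD, hd⟩ := exists_countable_dense K
  refine hD.mono fun x hx => ?_
  obtain ⟨y, hy, hyD⟩ := hd.inter_open_nonempty {x} hx (singleton_nonempty x)
  rwa [mem_singleton_iff.1 hy] at hyD

theorem r1_countable [SecondCountableTopology K] : {x : K | ¬ Io x ∧ x ∉ L2 K}.Countable := by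
  have h : ∀ x : {x : K | ¬ Io x ∧ x ∉ L2 K}, ∃ b ∈ countableBasis K, (x : K) ∈ b ∧
      ∀ y ∈ b, y ≠ x → Io y := by
    rintro ⟨x, hx, hx2⟩
    obtain ⟨U, hU, hxU, h1⟩ := not_l2 hx2
    obtain ⟨b, hb, hxb, hbU⟩ := (isBasis_countableBasis K).exists_subset_of_mem_open hxU hU
    exact ⟨b, hb, hxb, fun y hy => h1 y (hbU hy)⟩
  choose b hb hxb hu using h
  have hinj : Function.Injective (fun x => (⟨b x, hb x⟩ : countableBasis K)) := by
    intro x y hxy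
    have h1 : b x = b y := congrArg Subtype.val hxy
    by_contra hne
    have h2 : (x : K) ≠ y := fun h => hne (Subtype.ext h)
    exact x.2.1 (hu y x (h1 ▸ hxb x) h2)
  have : Countable (countableBasis K) := (countable_countableBasis K).to_subtype
  exact hinj.countable

/-- case (a) -/
theorem case_om [CompactSpace K] [T2Space K] [SecondCountableTopology K]
    [TotallyDisconnectedSpace K] {p : K} (hp : p ∈ L2 K) {V : Set K} (hV : IsOpen V) (hpV : p ∈ V)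
    (h : ∀ y ∈ V, y ≠ p → y ∉ L2 K) : ∃ U : Set K, IsClopen U ∧ Countable U ∧ ∃ p : U, Om p := by
  obtain ⟨U, hU, hpU, hUV⟩ := compact_exists_isClopen_in_isOpen hV hpV
  refine ⟨U, hU, ?_, ⟨p, hpU⟩, ?_, ?_⟩
  · have h1 : ({x : K | Io x} ∪ {x : K | ¬ Io x ∧ x ∉ L2 K} ∪ {p}).Countable :=
      (io_countable.union r1_countable).union (countable_singleton p)
    have h2 : U ⊆ {x : K | Io x} ∪ {x : K | ¬ Io x ∧ x ∉ L2 K} ∪ {p} := by
      intro x hx
      by_cases hxp : x = p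
      · exact Or.inr hxp
      · by_cases hi : Io x
        · exact Or.inl (Or.inl hi)
        · exact Or.inl (Or.inr ⟨hi, h x (hUV hx) hxp⟩)
    exact (h1.mono h2).to_subtype
  · intro x hxp hx
    have hx1 : (x : K) ≠ p := fun h => hxp (Subtype.ext h)
    have hx2 : ¬ Io (x : K) := fun h => hx ((io_sub hU.isOpen x).2 h)
    obtain ⟨W, hW, hxW, hW1⟩ := not_l2 (h x (hUV x.2) hx1)
    obtain ⟨A, hA, hxA, hAW⟩ := compact_exists_isClopen_in_isOpen hW hxW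
    refine ⟨Subtype.val ⁻¹' A, hA.preimage continuous_subtype_val, hxA, hx, ?_⟩
    intro y hy hyn
    by_contra hne
    exact hyn ((io_sub hU.isOpen y).2 (hW1 y (hAW hy) fun h => hne (Subtype.ext h)))
  · intro hfin
    have hF : (Subtype.val '' {x : U | ¬ Io x} \ {p}).Finite := (hfin.image _).sdiff
    obtain ⟨y, hy, hne, hyn⟩ := hp (U \ (Subtype.val '' {x : U | ¬ Io x} \ {p}))
      (hU.isOpen.sdiff hF.isClosed) ⟨hpU, fun h => h.2 rfl⟩
    apply hy.2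
    exact ⟨⟨⟨y, hy.1⟩, fun h => hyn ((io_sub hU.isOpen _).1 h), rfl⟩, hne⟩

end

theorem t_TRI : S_TRI := by
  intro K _ _ _ _ _ hinf
  have hne := l2_ne hinf
  by_cases ha : ∃ p ∈ L2 K, ∃ V : Set K, IsOpen V ∧ p ∈ V ∧ ∀ y ∈ V, y ≠ p → y ∉ L2 K
  · obtain ⟨p, hp, V, hV, hpV, h⟩ := ha
    obtain ⟨U, hU, h1, h2⟩ := case_om hp hV hpV h
    exact ⟨U, hU, Or.inl ⟨h1, h2⟩⟩
  · have hb : ∀ x ∈ L2 K, ∀ V : Set K, IsOpen V → x ∈ V → ∃ y ∈ V, y ≠ x ∧ y ∈ L2 K := by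
      intro x hx V hV hxV
      by_contra hcon
      apply ha
      refine ⟨x, hx, V, hV, hxV, fun y hy hne hy2 => hcon ⟨y, hy, hne, hy2⟩⟩
    by_cases hb1 : ∃ x ∈ L2 K, ∃ V : Set K, IsOpen V ∧ x ∈ V ∧ ∀ y ∈ V, ¬ Io y
    · obtain ⟨x, hx, V, hV, hxV, h⟩ := hb1
      obtain ⟨U, hU, hxU, hUV⟩ := compact_exists_isClopen_in_isOpen hV hxV
      refine ⟨U, hU, Or.inr (Or.inl ⟨⟨x, hxU⟩, fun y hy => ?_⟩)⟩
      exact h y (hUV y.2) ((io_sub hU.isOpen y).1 hy)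
    · have hb1' : ∀ x ∈ L2 K, ∀ V : Set K, IsOpen V → x ∈ V → ∃ y ∈ V, Io y := by
        intro x hx V hV hxV
        by_contra hcon
        apply hb1
        exact ⟨x, hx, V, hV, hxV, fun y hy hy2 => hcon ⟨y, hy, hy2⟩⟩
      by_cases hb2 : ∃ x ∈ L2 K, ∃ V : Set K, IsOpen V ∧ x ∈ V ∧ ∀ y ∈ V, ¬ Io y → y ∈ L2 K
      · obtain ⟨x, hx, V, hV, hxV, h⟩ := hb2
        obtain ⟨U, hU, hxU, hUV⟩ := compact_exists_isClopen_in_isOpen hV hxV
        refine ⟨U, hU, Or.inr (Or.inr (Or.inl ⟨?_, ?_, ?_⟩))⟩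
        · intro W hW hWne
          obtain ⟨z, hz⟩ := hWne
          by_cases hzi : Io z
          · exact ⟨z, hz, hzi⟩
          · have hz1 : (z : K) ∈ L2 K := h z (hUV z.2) fun h => hzi ((io_sub hU.isOpen z).2 h)
            obtain ⟨y, ⟨y', hy', rfl⟩, hy2⟩ := hb1' z hz1 (Subtype.val '' W)
              (hU.isOpen.isOpenMap_subtype_val W hW) ⟨z, hz, rfl⟩
            exact ⟨y', hy', (io_sub hU.isOpen y').2 hy2⟩
        · intro z hz
          rw [l2_sub hU.isOpen]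
          exact h z (hUV z.2) fun h => hz ((io_sub hU.isOpen z).2 h)
        · exact ⟨⟨x, hxU⟩, fun h => l2_lim hx ((io_sub hU.isOpen _).1 h)⟩
      · have hb2' : ∀ x ∈ L2 K, ∀ V : Set K, IsOpen V → x ∈ V → ∃ y ∈ V, ¬ Io y ∧ y ∉ L2 K := by
          intro x hx V hV hxV
          by_contra hcon
          apply hb2
          refine ⟨x, hx, V, hV, hxV, fun y hy hyn => ?_⟩
          by_contra h2
          exact hcon ⟨y, hy, hyn, h2⟩
        have hu : IsOpen (univ : Set K) := isOpen_univ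
        refine ⟨univ, isClopen_univ, Or.inr (Or.inr (Or.inr ⟨?_, ?_, ?_⟩))⟩
        · intro x hx W hW hxW
          obtain ⟨y, ⟨z, hz, rfl⟩, hy1, hy2⟩ := hb2' x ((l2_sub hu x).1 hx) (Subtype.val '' W)
            (hu.isOpenMap_subtype_val W hW) ⟨x, hxW, rfl⟩
          exact ⟨z, hz, fun h => hy1 ((io_sub hu z).1 h), fun h => hy2 ((l2_sub hu z).1 h)⟩
        · intro x hx W hW hxW
          obtain ⟨y, ⟨z, hz, rfl⟩, hy1, hy2⟩ := hb x ((l2_sub hu x).1 hx) (Subtype.val '' W)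
            (hu.isOpenMap_subtype_val W hW) ⟨x, hxW, rfl⟩
          exact ⟨z, hz, fun h => hy1 (congrArg _ h), (l2_sub hu z).2 hy2⟩
        · obtain ⟨x, hx⟩ := hne
          exact ⟨⟨x, mem_univ x⟩, (l2_sub hu _).2 hx⟩

end Pool.Agent.H115.KK
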